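import Pool.Agent.H110.Refl.AlgA
import Pool.Agent.H110.R12.Data
namespace Pool.Agent.H110.R12

open Pool.Agent.H110.Refl

noncomputable def test (a g v : Nat) : Bool :=
  Bool.rec false (Bool.rec (conn a g v (Nat.log2 v)) false (Nat.beq (Nat.land (Nat.shiftRight a Ssh) v) 0)) (degE a g)

/-- vertices to the left of the ray from `p` to `w` -/
noncomputable def lft (C p w : Nat) : Nat :=
  Nat.land (Nat.shiftRight C (Nat.mul (Nat.add (Nat.mul p 19) w) 19)) 524287

/-- possible further edges after the edge from `w` to `x` -/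
noncomputable def msk (w x : Nat) : Nat :=
  Nat.mod (Nat.shiftRight TX (Nat.mul (Nat.add (Nat.mul w 19) x) 463)) (Nat.pow 2 463)

noncomputable def kx (x : Nat) : Nat := Nat.add (Nat.shiftLeft 1 x) (Nat.shiftLeft 1 (Nat.add 84 (Nat.mul 21 x)))

noncomputable def GM : Nat := Nat.add (Nat.sub (Nat.pow 2 484) (Nat.pow 2 64)) 524287

noncomputable def hsh (a : Nat) : Nat := Nat.lor a (Nat.mod a 2305843009213693951)

noncomputable def gnew (C w x a g0 b : Nat) : Nat :=
  Nat.add g0 (Nat.add (Nat.shiftLeft b 20) (Nat.shiftLeft (Nat.land (Nat.land (Nat.shiftRight a (Nat.add 64 (Nat.mul 21 x))) (lft C w x)) g0) 24))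

noncomputable def child (ih : Nat → Nat → Nat → Bool) (C w x a g g0 : Nat) : Bool :=
  Nat.rec true (fun a' _ => Nat.rec true (fun g0' _ =>
     Bool.rec true
       (Nat.rec true (fun g' _ => Bool.rec false true (ih x a' g')) (Nat.succ (gnew C w x a' g0' (Nat.sub (Nat.add (Nat.land (Nat.shiftRight g 20) 15) (bit g (Nat.add 24 x))) 1))))
       (test a' g0' (Nat.land g0' 524287))) (Nat.succ g0)) (Nat.succ (hsh a))

noncomputable def loop (ih : Nat → Nat → Nat → Bool) (C w a g : Nat) (f : Nat) : Nat → Bool :=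
  Nat.rec (fun _ => true) (fun _ ih2 c =>
    Bool.rec
      (Nat.rec true (fun x _ => Bool.rec false (ih2 (Nat.sub c (Nat.shiftLeft 1 x)))
        (child ih C w x (Nat.land a (msk w x)) g (Nat.sub (Nat.land g GM) (kx x))))
          (Nat.succ (Nat.log2 c)))
      true (Nat.beq c 0)) f

noncomputable def nodeB (C : Nat) (ih : Nat → Nat → Nat → Bool) (w a g : Nat) : Bool :=
  Nat.rec true (fun c _ => loop ih C w a g 19 c)
   (Nat.succ (Nat.rec (Nat.land (Nat.shiftRight g 24) 524287)
      (fun _ _ => Nat.land (Nat.shiftRight a (Nat.add 64 (Nat.mul 21 w))) (Nat.land g 524287)) (Nat.land (Nat.shiftRight g 20) 15)))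

noncomputable def baseX (C w a g x : Nat) : Bool :=
  Bool.rec true (Bool.rec true (Bool.rec true false
    (Nat.ble 2 (Nat.add (Nat.land (Nat.shiftRight g 20) 15) (Nat.add (bit g (Nat.add 24 x)) (bit (lft C w x) Sv)))))
    (Nat.beq (bit a (Nat.add 64 (Nat.add (Nat.mul 21 w) x))) 1)) (Nat.beq (bit (Nat.land a (msk w x)) (Nat.add 64 (Nat.add (Nat.mul 21 x) Sv))) 1)

noncomputable def base (C : Nat) (w a g : Nat) : Bool :=
  Nat.rec true (fun x _ => baseX C w a g x) (Nat.succ (Nat.log2 (Nat.land g 524287)))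

noncomputable def node (C : Nat) (bs : Nat → Nat → Nat → Bool) (f : Nat) : Nat → Nat → Nat → Bool :=
  Nat.rec bs (fun _ ih => nodeB C ih) f

/-- the second phase -/
noncomputable def bs2 (C e f2 : Nat) (w a g : Nat) : Bool :=
  Nat.rec true (fun g' _ => Bool.rec false true (node C (base C) f2 w a g')) (Nat.succ (Nat.add g (Nat.shiftLeft e 20)))

/-- search below the vertex `w`, restricted to the candidates `c`; the first phase has `f1` levels more, the second
phase has `f2` levels, and `e` is added to the budget between the phases -/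
noncomputable def run (C e f1 f2 w a g c : Nat) : Bool :=
  loop (node C (bs2 C e f2) f1) C w a g 19 c

end Pool.Agent.H110.R12
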