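import Pool.Agent.H110.Refl.Defs

namespace Pool.Agent.H110.R12

open Pool.Agent.H110.Refl

/-- integer point as a point of the plane -/
def toPt (q : ℤ × ℤ) : Pt := ((q.1 : ℝ), (q.2 : ℝ))

def zturn (a b c : ℤ × ℤ) : ℤ := (b.1 - a.1) * (c.2 - a.2) - (b.2 - a.2) * (c.1 - a.1)

/-- `i`-th point of a list (cyclically) -/
def zv (Q : List (ℤ × ℤ)) (i : ℕ) : ℤ × ℤ := Q.getD (i % Q.length) (0, 0)

def vert (Q : List (ℤ × ℤ)) (i : ℕ) : Pt := toPt (zv Q i)

/-- test for a simple polygon in general position -/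
def chkPoly (Q : List (ℤ × ℤ)) : Bool :=
  (List.range Q.length).all fun i =>
    decide (zturn (zv Q i) (zv Q (i + 1)) (zv Q (i + 2)) ≠ 0) &&
    (List.range Q.length).all fun j =>
      decide (i = j) || decide (j = (i + 1) % Q.length) || decide (i = (j + 1) % Q.length) ||
      decide (0 < zturn (zv Q i) (zv Q (i + 1)) (zv Q j) * zturn (zv Q i) (zv Q (i + 1)) (zv Q (j + 1))) ||
      decide (0 < zturn (zv Q j) (zv Q (j + 1)) (zv Q i) * zturn (zv Q j) (zv Q (j + 1)) (zv Q (i + 1)))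

def zarea (Q : List (ℤ × ℤ)) : ℤ :=
  ((List.range Q.length).map fun i => (zv Q i).1 * (zv Q (i + 1)).2 - (zv Q (i + 1)).1 * (zv Q i).2).sum

def zref (Q : List (ℤ × ℤ)) : ℕ :=
  ((List.range Q.length).filter fun i => decide (zturn (zv Q i) (zv Q (i + 1)) (zv Q (i + 2)) < 0)).length

/-- the set of points of a list -/
noncomputable def PS (Q : List (ℤ × ℤ)) : Finset Pt := by
  classical exact (Q.map toPt).toFinset

/-- a cyclic enumeration of the points `0, …, n-1` without crossing edges -/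
structure Cyc (Q : List (ℤ × ℤ)) (α : ℕ → ℕ) : Prop where
  per : ∀ i, α (i + Q.length) = α i
  lt : ∀ i, α i < Q.length
  inj : ∀ i < Q.length, ∀ j < Q.length, α i = α j → i = j
  ncr : ∀ i j, α i ≠ α j → α i ≠ α (j + 1) → α (i + 1) ≠ α j → α (i + 1) ≠ α (j + 1) →
    ¬ (zturn (zv Q (α i)) (zv Q (α (i + 1))) (zv Q (α j)) * zturn (zv Q (α i)) (zv Q (α (i + 1))) (zv Q (α (j + 1))) < 0 ∧
       zturn (zv Q (α j)) (zv Q (α (j + 1))) (zv Q (α i)) * zturn (zv Q (α j)) (zv Q (α (j + 1))) (zv Q (α (i + 1))) < 0)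

end Pool.Agent.H110.R12
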