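import Pool.Agent.H110.R12.Base

namespace Pool.Agent.H110.R12.G4

open Pool.Agent.H110.Refl

theorem turn_comb (a b c d : Pt) (s t : ℝ) (hst : s + t = 1) :
    turn a b (s • c + t • d) = s * turn a b c + t * turn a b d := by
  have hs : s = 1 - t := by linarith
  subst hs
  simp only [turn, Prod.fst_add, Prod.snd_add, Prod.smul_fst, Prod.smul_snd, smul_eq_mul]
  ring

theorem turn_self (a b : Pt) : turn a b b = 0 := by
  simp only [turn]
  ring

theorem turn_first (a b : Pt) : turn a b a = 0 := by
  simp only [turn]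
  ring

theorem turn_seg {a b x : Pt} (hx : x ∈ segment ℝ a b) : turn a b x = 0 := by
  obtain ⟨s, t, hs, ht, hst, rfl⟩ := hx
  rw [turn_comb a b a b s t hst, turn_self, turn_first]
  ring

theorem disj_of_same_side (a b c d : Pt) (h : 0 < turn a b c * turn a b d) :
    Disjoint (segment ℝ a b) (segment ℝ c d) := by
  rw [Set.disjoint_left]
  intro x hx hx'
  have h1 := turn_seg hx
  obtain ⟨s, t, hs, ht, hst, rfl⟩ := hx'
  rw [turn_comb a b c d s t hst] at h1
  have h2 : turn a b c ≠ 0 := fun h0 => by rw [h0, zero_mul] at h; exact lt_irrefl _ h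
  have h3 : s * (turn a b c * turn a b c) + t * (turn a b c * turn a b d) = 0 := by
    linear_combination (turn a b c) * h1
  have h4 : 0 < turn a b c * turn a b c := mul_self_pos.2 h2
  have h5 : 0 ≤ s * (turn a b c * turn a b c) := mul_nonneg hs h4.le
  have h6 : 0 ≤ t * (turn a b c * turn a b d) := mul_nonneg ht h.le
  have h7 : s * (turn a b c * turn a b c) = 0 := by linarith
  have h8 : t * (turn a b c * turn a b d) = 0 := by linarith
  have h9 : s = 0 := by
    rcases mul_eq_zero.1 h7 with h | h
    · exact h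
    · exact absurd h h4.ne'
  have h10 : t = 0 := by
    rcases mul_eq_zero.1 h8 with h' | h'
    · exact h'
    · exact absurd h' h.ne'
  linarith

theorem disj_adj (a b c : Pt) (h : turn a b c ≠ 0) :
    Disjoint (segment ℝ a b \ {b}) (segment ℝ b c \ {c}) := by
  rw [Set.disjoint_left]
  rintro x ⟨hx, hxb⟩ ⟨hx', -⟩
  have h1 := turn_seg hx
  obtain ⟨s, t, hs, ht, hst, rfl⟩ := hx'
  rw [turn_comb a b b c s t hst, turn_self, mul_zero, zero_add] at h1
  have h2 : t = 0 := by
    rcases mul_eq_zero.1 h1 with h' | h'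
    · exact h'
    · exact absurd h' h
  apply hxb
  have h3 : s = 1 := by linarith
  rw [h2, h3, one_smul, zero_smul, add_zero]
  rfl

theorem toPt_inj : Function.Injective toPt := by
  intro p q h
  have h1 : (p.1 : ℝ) = q.1 := congrArg Prod.fst h
  have h2 : (p.2 : ℝ) = q.2 := congrArg Prod.snd h
  exact Prod.ext (by exact_mod_cast h1) (by exact_mod_cast h2)

theorem turn_toPt (a b c : ℤ × ℤ) : turn (toPt a) (toPt b) (toPt c) = (zturn a b c : ℝ) := by
  simp only [turn, toPt, zturn]
  push_cast
  ring

theorem card_PS (Q : List (ℤ × ℤ)) (hn : Q.Nodup) : (PS Q).card = Q.length := by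
  classical
  unfold PS
  rw [List.toFinset_card_of_nodup (hn.map toPt_inj), List.length_map]

theorem mem_PS (Q : List (ℤ × ℤ)) (x : Pt) : x ∈ PS Q ↔ ∃ q ∈ Q, toPt q = x := by
  unfold PS
  rw [List.mem_toFinset, List.mem_map]

theorem zv_mod {Q : List (ℤ × ℤ)} {i j : ℕ} (h : i % Q.length = j % Q.length) :
    zv Q i = zv Q j := by
  unfold zv
  rw [h]

theorem isPolygonization_of_chk (Q : List (ℤ × ℤ)) (h3 : 3 ≤ Q.length) (hn : Q.Nodup)
    (h : chkPoly Q = true) : IsPolygonization (PS Q) (vert Q) := by
  classical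
  have hpos : 0 < Q.length := by omega
  unfold chkPoly at h
  rw [List.all_eq_true] at h
  have H : ∀ i < Q.length, zturn (zv Q i) (zv Q (i + 1)) (zv Q (i + 2)) ≠ 0 ∧
      ∀ j < Q.length, i = j ∨ j = (i + 1) % Q.length ∨ i = (j + 1) % Q.length ∨
      0 < zturn (zv Q i) (zv Q (i + 1)) (zv Q j) * zturn (zv Q i) (zv Q (i + 1)) (zv Q (j + 1)) ∨
      0 < zturn (zv Q j) (zv Q (j + 1)) (zv Q i) * zturn (zv Q j) (zv Q (j + 1)) (zv Q (i + 1)) := by
    intro i hi
    have h1 := h i (List.mem_range.2 hi)
    rw [Bool.and_eq_true, decide_eq_true_eq, List.all_eq_true] at h1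
    refine ⟨h1.1, fun j hj => ?_⟩
    have h2 := h1.2 j (List.mem_range.2 hj)
    simp only [Bool.or_eq_true, decide_eq_true_eq] at h2
    tauto
  refine ⟨⟨?_, ?_⟩, ?_⟩
  · intro i
    rw [card_PS Q hn]
    unfold vert
    rw [zv_mod (Nat.add_mod_right i Q.length)]
  · rw [card_PS Q hn]
    intro i hi j hj hij
    -- the adjacent case
    have adj : ∀ i < Q.length, ∀ j < Q.length, j = (i + 1) % Q.length →
        Disjoint (segment ℝ (vert Q i) (vert Q (i + 1)) \ {vert Q (i + 1)})
          (segment ℝ (vert Q j) (vert Q (j + 1)) \ {vert Q (j + 1)}) := by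
      intro i hi j hj hj'
      have e1 : vert Q j = vert Q (i + 1) := by
        unfold vert
        rw [zv_mod (i := j) (j := i + 1)]
        rw [hj', Nat.mod_mod]
      have e2 : vert Q (j + 1) = vert Q (i + 2) := by
        unfold vert
        rw [zv_mod (i := j + 1) (j := i + 2)]
        rw [hj', Nat.mod_add_mod]
      rw [e1, e2]
      apply disj_adj
      unfold vert
      rw [turn_toPt]
      exact_mod_cast (H i hi).1
    rcases (H i hi).2 j hj with h1 | h1 | h1 | h1 | h1
    · exact absurd h1 hij
    · exact adj i hi j hj h1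
    · exact (adj j hj i hi h1).symm
    · refine (disj_of_same_side _ _ _ _ ?_).mono Set.sdiff_subset Set.sdiff_subset
      unfold vert
      rw [turn_toPt, turn_toPt]
      exact_mod_cast h1
    · refine (disj_of_same_side _ _ _ _ ?_).symm.mono Set.sdiff_subset Set.sdiff_subset
      unfold vert
      rw [turn_toPt, turn_toPt]
      exact_mod_cast h1
  · ext x
    rw [card_PS Q hn, Finset.mem_image, mem_PS]
    constructor
    · rintro ⟨i, hi, rfl⟩
      rw [Finset.mem_range] at hi
      refine ⟨zv Q i, ?_, rfl⟩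
      unfold zv
      rw [Nat.mod_eq_of_lt hi, List.getD_eq_getElem _ _ hi]
      exact List.getElem_mem hi
    · rintro ⟨q, hq, rfl⟩
      obtain ⟨i, hi, rfl⟩ := List.getElem_of_mem hq
      refine ⟨i, Finset.mem_range.2 hi, ?_⟩
      unfold vert zv
      rw [Nat.mod_eq_of_lt hi, List.getD_eq_getElem _ _ hi]

theorem sum_list_range (n : ℕ) (f : ℕ → ℤ) :
    ((List.range n).map f).sum = ∑ i ∈ Finset.range n, f i := by
  induction n with
  | zero => simp
  | succ n ih => rw [List.range_succ, List.map_append, List.sum_append, ih, Finset.sum_range_succ]; simp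

theorem card_list_range (n : ℕ) (p : ℕ → Prop) [DecidablePred p] :
    ((List.range n).filter fun i => decide (p i)).length = ((Finset.range n).filter p).card := by
  induction n with
  | zero => simp
  | succ n ih =>
    rw [List.range_succ, List.filter_append, List.length_append, ih, Finset.range_add_one,
      Finset.filter_insert]
    by_cases h : p n
    · rw [if_pos h, Finset.card_insert_of_notMem (by simp)]
      simp [h]
    · rw [if_neg h]
      simp [h]

theorem reflexCount_eq (Q : List (ℤ × ℤ)) (h3 : 3 ≤ Q.length) (hn : Q.Nodup) (ha : 0 < zarea Q) :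
    reflexCount (PS Q).card (vert Q) = zref Q := by
  classical
  have harea : area2 (PS Q).card (vert Q) = (zarea Q : ℝ) := by
    rw [card_PS Q hn]
    unfold area2 zarea
    rw [sum_list_range]
    push_cast
    rfl
  have hpos : 0 < area2 (PS Q).card (vert Q) := by
    rw [harea]
    exact_mod_cast ha
  unfold reflexCount zref
  rw [card_list_range Q.length
    (fun i => zturn (zv Q i) (zv Q (i + 1)) (zv Q (i + 2)) < 0), card_PS Q hn]
  congr 1
  apply Finset.filter_congr
  intro i hi
  rw [card_PS Q hn] at hpos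
  unfold IsReflex
  rw [if_pos hpos]
  unfold vert
  rw [turn_toPt]
  exact Int.cast_lt_zero

end Pool.Agent.H110.R12.G4
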