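import Pool.Agent.H110.R12.Snd3

namespace Pool.Agent.H110.R12

open Pool.Agent.H110.Refl

theorem base_eq (C w a g x : ℕ) (hx : Nat.log2 (Nat.land g 524287) = x) : base C w a g = baseX C w a g x := by
  subst hx
  rfl

theorem baseX_false (C w a g x : ℕ)
    (h1 : Nat.ble 2 (Nat.add (Nat.land (Nat.shiftRight g 20) 15) (Nat.add (bit g (Nat.add 24 x)) (bit (lft C w x) Sv))) = true)
    (h2 : Nat.beq (bit a (Nat.add 64 (Nat.add (Nat.mul 21 w) x))) 1 = true)
    (h3 : Nat.beq (bit (Nat.land a (msk w x)) (Nat.add 64 (Nat.add (Nat.mul 21 x) Sv))) 1 = true) : baseX C w a g x = false := by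
  unfold baseX
  rw [h1, h2, h3]

theorem base_sound (C : ℕ) (α : ℕ → ℕ) (M : ℕ) (h : Tour α (M + 3)) (a b L : ℕ)
    (hS : St C α (M + 3) M 0 M a b L) : base C (α (M + 1)) a (G (U α (M + 3) (M + 1)) b L) = false := by
  have hb16 : b < 16 := by have := hS.hb; omega
  have hUlt := U_lt h (M + 1)
  have hU : U α (M + 3) (M + 1) = {α (M + 2)} := by
    ext y
    rw [mem_U, Finset.mem_singleton]
    constructor
    · rintro ⟨j, h1, h2, rfl⟩
      rw [show j = M + 2 by omega]
    · rintro rfl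
      exact ⟨M + 2, by omega, by omega, rfl⟩
  have hx : Nat.log2 (Nat.land (G (U α (M + 3) (M + 1)) b L) 524287) = α (M + 2) := by
    rw [G_unv _ _ _ hUlt, hU, vs, Finset.sum_singleton, Nat.log2_two_pow]
  rw [base_eq C _ a _ _ hx]
  have e1 : Nat.beq (bit (Nat.land a (msk (α (M + 1)) (α (M + 2)))) (Nat.add 64 (Nat.add (Nat.mul 21 (α (M + 2))) Sv))) 1 = true := by
    have t1 := (hS.inv.ed (M + 2) (by omega) (by omega)).1
    have t2 := (h.em (M + 1) (M + 2) (by omega) (by omega) (by omega)).1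
    rw [show M + 2 + 1 = M + 3 from rfl, h.cl, Nat.add_assoc] at t1
    rw [show M + 2 + 1 = M + 3 from rfl, h.cl, show M + 1 + 1 = M + 2 from rfl, Nat.add_assoc] at t2
    rw [bit_eq, land_def, add_def, add_def, mul_def, Nat.testBit_and, t1, t2]
    rfl
  have e2 : Nat.beq (bit a (Nat.add 64 (Nat.add (Nat.mul 21 (α (M + 1))) (α (M + 2))))) 1 = true := by
    have t1 := (hS.inv.ed (M + 1) (by omega) (by omega)).1
    rw [show M + 1 + 1 = M + 2 from rfl, Nat.add_assoc] at t1
    rw [bit_eq, add_def, add_def, mul_def, t1]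
    rfl
  have e3 : Nat.ble 2 (Nat.add b (Nat.add (L.testBit (α (M + 2))).toNat (bit (lft C (α (M + 1)) (α (M + 2))) Sv))) = true := by
    rw [bit_eq, add_def, add_def]
    rw [Nat.ble_eq]
    have h1 := hS.b2
    have h2 : M + 3 - 1 = M + 1 + 1 := by omega
    rw [h2, Finset.sum_eq_sum_Ico_succ_bot (by omega), Finset.sum_eq_sum_Ico_succ_bot (by omega), Finset.Ico_self,
      Finset.sum_empty] at h1
    have h3 : 1 ≤ (L.testBit (α (M + 2))).toNat + rr C α M := by
      rcases Nat.eq_zero_or_pos (rr C α M) with h0 | h0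
      · rw [hS.left h0]; simp
      · omega
    have h4 : 1 ≤ ((lft C (α (M + 1)) (α (M + 2))).testBit Sv).toNat + rr C α (M + 1) := by
      rcases Nat.eq_zero_or_pos (rr C α (M + 1)) with h0 | h0
      · have t : (lft C (α (M + 1)) (α (M + 1 + 1))).testBit (α (M + 1 + 2)) = true := by
          unfold rr at h0
          split at h0
          · assumption
          · exact absurd h0 (by omega)
        rw [show M + 1 + 2 = M + 3 from rfl, h.cl] at t
        rw [show M + 2 = M + 1 + 1 from rfl, t]; simp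
      · omega
    omega
  apply baseX_false _ _ _ _ _ _ e2 e1
  rw [G_budget _ _ _ hUlt hb16, G_bit _ _ _ _ hUlt hb16 hS.hL (h.lt _)]
  exact e3

theorem bs2_false (C e f2 w a g g' : ℕ) (hg : Nat.add g (Nat.shiftLeft e 20) = g')
    (h : node C (base C) f2 w a g' = false) : bs2 C e f2 w a g = false := by
  subst hg
  unfold bs2
  simp only [h]

theorem bs2_sound (C : ℕ) (α : ℕ → ℕ) (M m e f2 : ℕ) (h : Tour α (M + 3)) (hm : m + f2 = M) (a b L : ℕ)
    (hS : St C α (M + 3) m e m a b L) : bs2 C e f2 (α (m + 1)) a (G (U α (M + 3) (m + 1)) b L) = false := by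
  have h1 : node C (base C) f2 (α (m + 1)) a (G (U α (M + 3) (m + 1)) (b + e) L) = false := by
    apply node_sound (base C) C α (M + 3) M 0 h (by omega) _ f2 m a (b + e) L hm
    · refine ⟨hS.inv, hS.hb, hS.hL, hS.left, ?_, hS.b2⟩
      refine le_trans (Finset.sum_le_sum_of_subset ?_) hS.b2
      apply Finset.Ico_subset_Ico_right
      omega
    · intro a' b' L' hS'
      exact base_sound C α M h a' b' L' hS'
  exact bs2_false _ _ _ _ _ _ _ (G_add _ _ _ _) h1

theorem run_sound (C : ℕ) (α : ℕ → ℕ) (M m e f1 f2 : ℕ) (h : Tour α (M + 3)) (hm : 1 + f1 = m) (hm2 : m + f2 = M)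
    (a b L c : ℕ) (hS : St C α (M + 3) m e 0 a b L) (hc : c < 2 ^ 19) (hc2 : c.testBit (α 2) = true) :
    run C e f1 f2 (α 1) a (G (U α (M + 3) 1) b L) c = false := by
  unfold run
  refine loop_sound _ _ _ _ _ (α 2) ?_ 19 c hc hc2
  apply child_sound _ C α (M + 3) m e h 0 a b L hS (by omega) (by omega) (by omega)
  intro a' b' L' hS'
  exact node_sound _ C α (M + 3) m e h (by omega) (fun a' b' L' hS' => bs2_sound C α M m e f2 h hm2 a' b' L' hS') f1 1 a' b' L' hm hS'

end Pool.Agent.H110.R12
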