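import Pool.Agent.H110.R12.Oks

namespace Pool.Agent.H110.R12

open Pool.Agent.H110.Refl

/-- `1` if the tour turns right at position `i + 1` -/
def R (α : ℕ → ℕ) (i : ℕ) : ℕ :=
  if zturn (zv PL (α i)) (zv PL (α (i + 1))) (zv PL (α (i + 2))) < 0 then 1 else 0

theorem Cyc.modN {α : ℕ → ℕ} (h : Cyc PL α) {i j : ℕ} (hij : i % 12 = j % 12) : α i = α j := by
  apply G6.Cyc_modEq h
  rw [PL_length]
  exact hij

theorem Cyc.ne_mod {α : ℕ → ℕ} (h : Cyc PL α) {i j : ℕ} (hij : i % 12 ≠ j % 12) : α i ≠ α j := by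
  rw [h.modN (i := i) (j := i % 12) (Nat.mod_mod _ _).symm, h.modN (i := j) (j := j % 12) (Nat.mod_mod _ _).symm]
  exact h.injN _ _ (Nat.mod_lt _ (by omega)) (Nat.mod_lt _ (by omega)) hij

theorem Cyc.rot {α : ℕ → ℕ} (h : Cyc PL α) (t : ℕ) : Cyc PL (fun i => α (i + t)) := by
  refine ⟨?_, fun i => h.lt _, ?_, ?_⟩
  · intro i
    show α (i + PL.length + t) = α (i + t)
    rw [PL_length]
    exact h.modN (by omega)
  · intro i hi j hj hij
    rw [PL_length] at hi hj
    by_contra hne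
    exact h.ne_mod (i := i + t) (j := j + t) (by omega) hij
  · intro i j h1 h2 h3 h4
    have e : ∀ i, i + 1 + t = i + t + 1 := fun i => by omega
    simp only [e] at h1 h2 h3 h4 ⊢
    exact h.ncr (i + t) (j + t) h1 h2 h3 h4

theorem zturn_rev' (a b c : ℤ × ℤ) : zturn c b a = -zturn a b c := by
  unfold zturn; ring

theorem Cyc.oriR {α : ℕ → ℕ} (h : Cyc PL α) (i : ℕ) :
    (R α i = 0 ∧ 0 < zturn (zv PL (α i)) (zv PL (α (i + 1))) (zv PL (α (i + 2)))) ∨
    (R α i = 1 ∧ zturn (zv PL (α i)) (zv PL (α (i + 1))) (zv PL (α (i + 2))) < 0) := by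
  rcases ori _ _ _ (h.ltN i) (h.ltN (i + 1)) (h.ltN (i + 2)) (h.ne_mod (by omega)) (h.ne_mod (by omega))
    (h.ne_mod (by omega)) with h1 | h1
  · left
    refine ⟨?_, h1.1⟩
    unfold R
    rw [if_neg (by omega)]
  · right
    refine ⟨?_, h1.1⟩
    unfold R
    rw [if_pos h1.1]

theorem Cyc.ob_pos {α : ℕ → ℕ} (h : Cyc PL α) (i j k : ℕ) (h1 : i % 12 ≠ j % 12) (h2 : j % 12 ≠ k % 12)
    (h3 : i % 12 ≠ k % 12) (hz : 0 < zturn (zv PL (α i)) (zv PL (α j)) (zv PL (α k))) : ob CH (α i) (α j) (α k) = true := by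
  rcases ori _ _ _ (h.ltN i) (h.ltN j) (h.ltN k) (h.ne_mod h1) (h.ne_mod h2) (h.ne_mod h3) with h4 | h4
  · exact h4.2.1
  · omega

theorem Cyc.ob_neg {α : ℕ → ℕ} (h : Cyc PL α) (i j k : ℕ) (h1 : i % 12 ≠ j % 12) (h2 : j % 12 ≠ k % 12)
    (h3 : i % 12 ≠ k % 12) (hz : zturn (zv PL (α i)) (zv PL (α j)) (zv PL (α k)) < 0) : ob CHm (α i) (α j) (α k) = true := by
  rcases ori _ _ _ (h.ltN i) (h.ltN j) (h.ltN k) (h.ne_mod h1) (h.ne_mod h2) (h.ne_mod h3) with h4 | h4
  · omega
  · exact h4.2.2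

theorem Cyc.rr_le {α : ℕ → ℕ} (h : Cyc PL α) (j : ℕ) : rr CH α j ≤ R α j := by
  rcases h.oriR j with h1 | h1
  · have := h.ob_pos j (j + 1) (j + 2) (by omega) (by omega) (by omega) h1.2
    rw [ob_iff] at this
    unfold rr
    rw [if_pos this]
    omega
  · rw [h1.1]
    unfold rr
    split <;> omega

/-- the reversed tour -/
def rv (α : ℕ → ℕ) (i : ℕ) : ℕ := α (11 * i)

theorem Cyc.rv {α : ℕ → ℕ} (h : Cyc PL α) : Cyc PL (rv α) := by
  have := G6.Cyc_rev (by rw [PL_length]; omega) h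
  rw [PL_length] at this
  exact this

theorem Cyc.rr_rv {α : ℕ → ℕ} (h : Cyc PL α) (j : ℕ) (hj : j ≤ 10) : rr CHm (R12.rv α) j ≤ R α (10 - j) := by
  have e0 : R12.rv α j = α (10 - j + 2) := h.modN (by omega)
  have e1 : R12.rv α (j + 1) = α (10 - j + 1) := h.modN (by omega)
  have e2 : R12.rv α (j + 2) = α (10 - j) := h.modN (by omega)
  rcases h.oriR (10 - j) with h1 | h1
  · have := h.ob_neg (10 - j + 2) (10 - j + 1) (10 - j) (by omega) (by omega) (by omega)
      (by rw [zturn_rev']; exact neg_neg_of_pos h1.2)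
    rw [ob_iff, ← e0, ← e1, ← e2] at this
    unfold rr
    rw [if_pos this]
    omega
  · rw [h1.1]
    unfold rr
    split <;> omega

theorem sum_rot (p : ℕ → ℕ) (hp : ∀ i, p (i + 12) = p i) (t : ℕ) :
    ∑ i ∈ Finset.range 12, p (i + t) = ∑ i ∈ Finset.range 12, p i := by
  induction t with
  | zero => rfl
  | succ t ih =>
    rw [← ih]
    have h1 := Finset.sum_range_succ' (fun i => p (i + t)) 12
    have h2 := Finset.sum_range_succ (fun i => p (i + t)) 12
    have h3 : p (12 + t) = p (0 + t) := by rw [Nat.zero_add, Nat.add_comm, hp]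
    have h4 : ∑ i ∈ Finset.range 12, p (i + (t + 1)) = ∑ i ∈ Finset.range 12, p (i + 1 + t) := by
      apply Finset.sum_congr rfl
      intro i _
      rw [show i + (t + 1) = i + 1 + t by omega]
    rw [h4]
    omega

theorem main_aux {α : ℕ → ℕ} (h : Cyc PL α) (h0 : α 0 = Sv) (hs : ∑ i ∈ Finset.range 12, R α i ≤ 3) : False := by
  have hR : ∀ m, ∑ j ∈ Finset.Ico 0 m, rr CH α j ≤ ∑ j ∈ Finset.Ico 0 m, R α j :=
    fun m => Finset.sum_le_sum fun j _ => h.rr_le j
  have hV : ∀ m, m ≤ 11 → ∑ j ∈ Finset.Ico 0 m, rr CHm (R12.rv α) j ≤ ∑ j ∈ Finset.Ico (11 - m) 11, R α j := by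
    intro m hm
    have h1 : ∑ j ∈ Finset.Ico 0 m, rr CHm (R12.rv α) j ≤ ∑ j ∈ Finset.Ico 0 m, R α (10 - j) := by
      apply Finset.sum_le_sum
      intro j hj
      rw [Finset.mem_Ico] at hj
      exact h.rr_rv j (by omega)
    rw [Finset.sum_Ico_reflect _ _ (by omega)] at h1
    exact h1
  have hsplit : ∀ m, m ≤ 11 → ∑ j ∈ Finset.Ico 0 11, R α j = ∑ j ∈ Finset.Ico 0 m, R α j + ∑ j ∈ Finset.Ico m 11, R α j :=
    fun m hm => (Finset.sum_Ico_consecutive _ (by omega) hm).symm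
  have htot : ∑ i ∈ Finset.range 12, R α i = ∑ j ∈ Finset.Ico 0 11, R α j + R α 11 := by
    rw [Finset.sum_range_succ, Finset.range_eq_Ico]
  have e18 : α (11 + 1) = Sv := by rw [← h0]; exact h.modN (by omega)
  have e19 : α (11 + 2) = α 1 := h.modN (by omega)
  have v0 : R12.rv α 0 = Sv := by rw [← h0]; rfl
  have v1 : R12.rv α 1 = α 11 := rfl
  have v17 : R12.rv α 11 = α 1 := h.modN (by omega)
  have e0 : Sv = α 0 := h0.symm
  rcases h.oriR 11 with ⟨h1, h2⟩ | ⟨h1, h2⟩
  · -- left turn at the start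
    rw [e18, e19, e0] at h2
    have d1 : ob CH (α 11) Sv (α 1) = true := by
      rw [e0]
      exact h.ob_pos 11 0 1 (by omega) (by omega) (by omega) h2
    have d2 : ob CHm (R12.rv α 11) Sv (R12.rv α 1) = true := by
      rw [v17, v1, e0]
      exact h.ob_neg 1 0 11 (by omega) (by omega) (by omega) (by rw [zturn_rev']; exact neg_neg_of_pos h2)
    rcases Nat.lt_or_ge (∑ j ∈ Finset.Ico 0 6, R α j) 2 with h3 | h3
    · refine contra CH CH 2 5 3 1 6 rfl rfl (by omega) okA α h h0 d1 ?_ ?_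
      · have := hR 6; omega
      · have := hR 11; omega
    · refine contra CHm CHm 2 4 4 1 5 rfl rfl (by omega) okB (R12.rv α) h.rv v0 d2 ?_ ?_
      · have t1 := hV 5 (by omega)
        have t2 := hsplit 6 (by omega)
        rw [show 11 - 5 = 6 from rfl] at t1
        omega
      · have t1 := hV 11 (by omega)
        rw [show 11 - 11 = 0 from rfl] at t1
        omega
  · -- right turn at the start
    rw [e18, e19, e0] at h2
    have d1 : ob CHm (α 11) Sv (α 1) = true := by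
      rw [e0]
      exact h.ob_neg 11 0 1 (by omega) (by omega) (by omega) h2
    have d2 : ob CH (R12.rv α 11) Sv (R12.rv α 1) = true := by
      rw [v17, v1, e0]
      exact h.ob_pos 1 0 11 (by omega) (by omega) (by omega) (by rw [zturn_rev']; exact neg_pos_of_neg h2)
    rcases Nat.lt_or_ge (∑ j ∈ Finset.Ico 0 5, R α j) 2 with h3 | h3
    · refine contra CH CHm 1 4 4 1 5 rfl rfl (by omega) okC α h h0 d1 ?_ ?_
      · have := hR 5; omega
      · have := hR 11; omega
    · refine contra CHm CH 1 5 3 1 6 rfl rfl (by omega) okD (R12.rv α) h.rv v0 d2 ?_ ?_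
      · have t1 := hV 6 (by omega)
        have t2 := hsplit 5 (by omega)
        rw [show 11 - 6 = 5 from rfl] at t1
        omega
      · have t1 := hV 11 (by omega)
        rw [show 11 - 11 = 0 from rfl] at t1
        omega

theorem main {α : ℕ → ℕ} (h : Cyc PL α) : 4 ≤ ((Finset.range PL.length).filter fun i =>
      zturn (zv PL (α i)) (zv PL (α (i + 1))) (zv PL (α (i + 2))) < 0).card := by
  by_contra hlt
  have hlt : ((Finset.range PL.length).filter fun i =>
      zturn (zv PL (α i)) (zv PL (α (i + 1))) (zv PL (α (i + 2))) < 0).card ≤ 3 := by omega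
  rw [Finset.card_filter, PL_length] at hlt
  obtain ⟨t, -, ht⟩ := h.surj Sv Sv_lt
  apply main_aux (h.rot t) (by show α (0 + t) = Sv; rw [Nat.zero_add]; exact ht)
  have h1 := sum_rot (R α) (fun i => by
    unfold R
    rw [h.modN (i := i + 12) (j := i) (by omega), h.modN (i := i + 12 + 1) (j := i + 1) (by omega),
      h.modN (i := i + 12 + 2) (j := i + 2) (by omega)]) t
  have h2 : ∑ i ∈ Finset.range 12, R (fun i => α (i + t)) i = ∑ i ∈ Finset.range 12, R α (i + t) := by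
    apply Finset.sum_congr rfl
    intro i _
    unfold R
    simp only [show i + 1 + t = i + t + 1 by omega, show i + 2 + t = i + t + 2 by omega]
  rw [h2, h1]
  exact hlt

end Pool.Agent.H110.R12
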