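import Pool.Agent.H110.R12.Fin2
import Pool.Agent.H110.RMax

namespace Pool.Agent.H110.R12

open Pool.Agent.H110.Refl

theorem card_PL : (PS PL).card = 12 := by
  rw [G4.card_PS PL PL_nodup, PL_length]

theorem mem_idx {x : Pt} (hx : x ∈ PS PL) : ∃ i < 12, toPt (zv PL i) = x := by
  obtain ⟨q, hq, rfl⟩ := (G4.mem_PS _ _).1 hx
  obtain ⟨i, hi, rfl⟩ := List.getElem_of_mem hq
  refine ⟨i, by rwa [PL_length] at hi, ?_⟩
  unfold zv
  rw [Nat.mod_eq_of_lt hi, List.getD_eq_getElem _ _ hi]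

theorem genPos : RMax.GeneralPosition (PS PL) := by
  intro a ha b hb c hc hab hbc hac
  obtain ⟨i, hi, rfl⟩ := mem_idx ha
  obtain ⟨j, hj, rfl⟩ := mem_idx hb
  obtain ⟨k, hk, rfl⟩ := mem_idx hc
  apply RMax.not_collinear
  rw [G4.turn_toPt]
  have hij : i ≠ j := fun h => hab (by rw [h])
  have hjk : j ≠ k := fun h => hbc (by rw [h])
  have hik : i ≠ k := fun h => hac (by rw [h])
  rcases ori i j k hi hj hk hij hjk hik with h | h
  · exact_mod_cast h.1.ne'
  · exact_mod_cast h.1.ne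

theorem exists_poly : ∃ v, IsPolygonization (PS PL) v :=
  ⟨_, G4.isPolygonization_of_chk PL (by rw [PL_length]; omega) PL_nodup PL_chk⟩

end Pool.Agent.H110.R12
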