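import Pool.Agent.H110.R12.Base

namespace Pool.Agent.H110.R12

open Pool.Agent.H110.Refl

/-- the points of the set, in the order of a simple polygon -/
def PL : List (ℤ × ℤ) :=
  [(224161218, 3371444852), (-261863302, 339499654), (-17566905, -294160517), (-1085051939, -646273874), (-683848195, 1162711321), (-1311507101, 2282244504), (-1800118792, 644031804), (-1786548651, -481776126), (-3965648463, 1588394822), (149134724, -3677534938), (137404409, 586662940), (-107183283, 1172287517)]

end Pool.Agent.H110.R12
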