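import Pool.Agent.H110.R12.Snd1

namespace Pool.Agent.H110.R12

open Pool.Agent.H110.Refl

/-- the vertices after position `i` -/
def U (α : ℕ → ℕ) (N i : ℕ) : Finset ℕ := (Finset.Ico (i + 1) N).image α

theorem mem_U {α : ℕ → ℕ} {N i y : ℕ} : y ∈ U α N i ↔ ∃ j, i < j ∧ j < N ∧ α j = y := by
  simp only [U, Finset.mem_image, Finset.mem_Ico, Nat.succ_le_iff, and_assoc]

structure Tour (α : ℕ → ℕ) (N : ℕ) : Prop where
  lt : ∀ i, α i < 19
  inj : ∀ i < N, ∀ j < N, α i = α j → i = j
  st : α 0 = Sv
  cl : α N = Sv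
  sh : Ssh = 64 + 21 * Sv
  em : ∀ i j, 1 ≤ i → i < j → j < N → (msk (α i) (α (i + 1))).testBit (64 + 21 * α j + α (j + 1)) = true ∧
       (msk (α i) (α (i + 1))).testBit (64 + 21 * α (j + 1) + α j) = true

structure Inv (α : ℕ → ℕ) (N i a : ℕ) : Prop where
  lt : a < 2 ^ 463
  gd : ∀ y < 19, a.testBit (84 + 21 * y) = false
  ed : ∀ j, i ≤ j → j < N → a.testBit (64 + 21 * α j + α (j + 1)) = true ∧
    a.testBit (64 + 21 * α (j + 1) + α j) = true

theorem U_lt {α : ℕ → ℕ} {N : ℕ} (h : Tour α N) (i : ℕ) : ∀ y ∈ U α N i, y < 19 := by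
  intro y hy
  obtain ⟨j, -, -, rfl⟩ := mem_U.1 hy
  exact h.lt j

theorem U_erase {α : ℕ → ℕ} {N : ℕ} (h : Tour α N) (i : ℕ) (hi : i + 1 < N) :
    (U α N i).erase (α (i + 1)) = U α N (i + 1) := by
  ext y
  rw [Finset.mem_erase, mem_U, mem_U]
  constructor
  · rintro ⟨h1, j, h2, h3, rfl⟩
    refine ⟨j, ?_, h3, rfl⟩
    rcases Nat.lt_or_ge (i + 1) j with h4 | h4
    · exact h4
    · exact absurd (by rw [show j = i + 1 by omega]) h1
  · rintro ⟨j, h2, h3, rfl⟩
    refine ⟨?_, j, by omega, h3, rfl⟩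
    intro h4
    have := h.inj j h3 (i + 1) hi h4
    omega

theorem hsh_testBit (a k : ℕ) (hk : 61 ≤ k) : (hsh a).testBit k = a.testBit k := by
  unfold hsh
  rw [lor_def, mod_def, Nat.testBit_or, Nat.testBit_lt_two_pow (x := a % 2305843009213693951), Bool.or_false]
  calc a % 2305843009213693951 < 2305843009213693951 := Nat.mod_lt _ (by norm_num)
    _ < 2 ^ 61 := by norm_num
    _ ≤ 2 ^ k := Nat.pow_le_pow_right (by norm_num) hk

theorem hsh_lt (a : ℕ) (h : a < 2 ^ 463) : hsh a < 2 ^ 463 := by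
  apply Nat.lt_pow_two_of_testBit
  intro i hi
  rw [hsh_testBit a i (by omega)]
  exact Nat.testBit_lt_two_pow (lt_of_lt_of_le h (Nat.pow_le_pow_right (by norm_num) hi))

theorem Inv.step {α : ℕ → ℕ} {N i a : ℕ} (h : Tour α N) (hI : Inv α N i a) (hi : 1 ≤ i) :
    Inv α N (i + 1) (hsh (Nat.land a (msk (α i) (α (i + 1))))) := by
  refine ⟨hsh_lt _ (lt_of_le_of_lt Nat.and_le_left hI.lt), ?_, ?_⟩
  · intro y hy
    rw [hsh_testBit _ _ (by omega), land_def, Nat.testBit_and, hI.gd y hy, Bool.false_and]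
  · intro j hj hj2
    rw [hsh_testBit _ _ (by omega), hsh_testBit _ _ (by omega), land_def, Nat.testBit_and, Nat.testBit_and,
      (hI.ed j (by omega) hj2).1, (hI.ed j (by omega) hj2).2, (h.em i j hi (by omega) hj2).1,
      (h.em i j hi (by omega) hj2).2]
    exact ⟨rfl, rfl⟩

theorem closed_all {α : ℕ → ℕ} {N i a c : ℕ} (hI : Inv α N i a)
    (hcl : ∀ z ∈ U α N i, ∀ y, c.testBit y = true → a.testBit (64 + 21 * z + y) = true → c.testBit z = true)
    (hc : ∃ y ∈ U α N i, c.testBit y = true) : ∀ y ∈ U α N i, c.testBit y = true := by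
  obtain ⟨y, hy, hcy⟩ := hc
  obtain ⟨j0, h1, h2, rfl⟩ := mem_U.1 hy
  have up : ∀ k, j0 + k < N → c.testBit (α (j0 + k)) = true := by
    intro k
    induction k with
    | zero => intro _; exact hcy
    | succ k ih =>
      intro hk
      exact hcl (α (j0 + (k + 1))) (mem_U.2 ⟨_, by omega, hk, rfl⟩) _ (ih (by omega)) (hI.ed (j0 + k) (by omega) (by omega)).2
  have dn : ∀ k, i < j0 - k → c.testBit (α (j0 - k)) = true := by
    intro k
    induction k with
    | zero => intro _; exact hcy
    | succ k ih =>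
      intro hk
      have h3 := ih (by omega)
      rw [show j0 - k = (j0 - (k + 1)) + 1 by omega] at h3
      exact hcl (α (j0 - (k + 1))) (mem_U.2 ⟨_, by omega, by omega, rfl⟩) _ h3 (hI.ed (j0 - (k + 1)) (by omega) (by omega)).1
  intro y hy
  obtain ⟨j, h3, h4, rfl⟩ := mem_U.1 hy
  rcases Nat.le_total j0 j with h5 | h5
  · have := up (j - j0) (by omega)
    rwa [show j0 + (j - j0) = j by omega] at this
  · have := dn (j0 - j) (by omega)
    rwa [show j0 - (j0 - j) = j by omega] at this

theorem connL_sound {α : ℕ → ℕ} {N i a : ℕ} (h : Tour α N) (hI : Inv α N i a) (f : ℕ) : ∀ d c,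
    (∀ z, d.testBit z = true → z ∈ U α N i) → (∃ z, d.testBit z = true) →
    (d = c → ∀ z ∈ U α N i, ∀ y, c.testBit y = true → a.testBit (64 + 21 * z + y) = true → c.testBit z = true) →
    connL a (gs (U α N i)) (vs (U α N i)) f d c = true := by
  induction f with
  | zero => intro d c _ _ _; rfl
  | succ f ih =>
    intro d c hd hne hcl
    show (Bool.rec (Bool.rec (connL a (gs (U α N i)) (vs (U α N i)) f (nbr a (gs (U α N i)) d) d) false (Nat.beq d c)) true
      (Nat.beq d (vs (U α N i))) : Bool) = true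
    rcases hb : Nat.beq d (vs (U α N i)) with _ | _
    · rcases hb2 : Nat.beq d c with _ | _
      · show connL a (gs (U α N i)) (vs (U α N i)) f (nbr a (gs (U α N i)) d) d = true
        have hdlt : d < 2 ^ 19 := by
          apply Nat.lt_pow_two_of_testBit
          intro k hk
          by_contra h2
          have := U_lt h i k (hd k (by simpa using h2))
          omega
        have key := nbr_testBit a d (U α N i) (U_lt h i) hI.lt hI.gd hdlt
        apply ih
        · intro z hz
          rcases (key z).1 hz with h1 | h1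
          · exact hd z h1
          · exact h1.1
        · obtain ⟨z, hz⟩ := hne
          exact ⟨z, (key z).2 (Or.inl hz)⟩
        · intro he z hz y hy hay
          rw [← he]
          exact (key z).2 (Or.inr ⟨hz, y, hy, hay⟩)
      · exfalso
        have hdc : d = c := Nat.eq_of_beq_eq_true hb2
        obtain ⟨z, hz⟩ := hne
        have hall := closed_all hI (hcl hdc) ⟨z, hd z hz, by rw [← hdc]; exact hz⟩
        have : d = vs (U α N i) := by
          apply Nat.eq_of_testBit_eq
          intro k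
          rw [Bool.eq_iff_iff, vs_testBit]
          exact ⟨fun hk => hd k hk, fun hk => by rw [hdc]; exact hall k hk⟩
        rw [this] at hb
        exact absurd hb (by simp)
    · rfl

theorem conn_sound {α : ℕ → ℕ} {N i a y : ℕ} (h : Tour α N) (hI : Inv α N i a) (hy : y ∈ U α N i) :
    conn a (gs (U α N i)) (vs (U α N i)) y = true := by
  unfold conn
  have hb : ∀ z, (Nat.lor (Nat.land (Nat.shiftRight a (Nat.add 64 (Nat.mul 21 y))) (vs (U α N i))) (Nat.shiftLeft 1 y)).testBit z
      = true ↔ (a.testBit (64 + 21 * y + z) = true ∧ z ∈ U α N i) ∨ z = y := by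
    intro z
    rw [lor_def, land_def, shr_def, shl_def, add_def, mul_def, Nat.testBit_or, Nat.testBit_and, Bool.or_eq_true,
      Bool.and_eq_true, vs_testBit, Nat.testBit_shiftRight, Nat.one_shiftLeft, Nat.testBit_two_pow, decide_eq_true_eq]
    constructor
    · rintro (h1 | h1)
      · exact Or.inl h1
      · exact Or.inr h1.symm
    · rintro (h1 | h1)
      · exact Or.inl h1
      · exact Or.inr h1.symm
  apply connL_sound h hI
  · intro z hz
    rcases (hb z).1 hz with h1 | h1
    · exact h1.2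
    · rw [h1]; exact hy
  · exact ⟨y, (hb y).2 (Or.inr rfl)⟩
  · intro h0
    have := (hb y).2 (Or.inr rfl)
    rw [h0] at this
    simp at this

theorem test_sound {α : ℕ → ℕ} {N i a : ℕ} (h : Tour α N) (hI : Inv α N i a) (hi : 1 ≤ i) (hi2 : i + 1 < N) :
    test a (gs (U α N i)) (vs (U α N i)) = true := by
  have hne : ∃ y, y ∈ U α N i := ⟨_, mem_U.2 ⟨i + 1, by omega, hi2, rfl⟩⟩
  have h1 : degE a (gs (U α N i)) = true := by
    apply degE_true _ _ (U_lt h i) hI.lt hI.gd
    intro y hy
    obtain ⟨j, hj1, hj2, rfl⟩ := mem_U.1 hy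
    have e1 := (hI.ed (j - 1) (by omega) (by omega)).2
    have e2 := (hI.ed j (by omega) hj2).1
    rw [show j - 1 + 1 = j by omega] at e1
    have hne : α (j - 1) ≠ α (j + 1) := by
      intro he
      rcases Nat.lt_or_ge (j + 1) N with h3 | h3
      · have := h.inj _ (by omega) _ h3 he
        omega
      · have h4 : j + 1 = N := by omega
        rw [h4, h.cl, ← h.st] at he
        have := h.inj _ (by omega) _ (by omega) he
        omega
    rcases Nat.lt_or_gt_of_ne hne with h3 | h3
    · exact ⟨_, _, h3, (by have := h.lt (j + 1); omega), e1, e2⟩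
    · exact ⟨_, _, h3, (by have := h.lt (j - 1); omega), e2, e1⟩
  have h2 : Nat.beq (Nat.land (Nat.shiftRight a Ssh) (vs (U α N i))) 0 = false := by
    rw [Bool.eq_false_iff]
    intro h3
    have h4 := Nat.eq_of_beq_eq_true h3
    have h5 : (Nat.land (Nat.shiftRight a Ssh) (vs (U α N i))).testBit (α (N - 1)) = true := by
      rw [land_def, shr_def, Nat.testBit_and, Nat.testBit_shiftRight, Bool.and_eq_true, vs_testBit]
      have e := (hI.ed (N - 1) (by omega) (by omega)).2
      rw [show N - 1 + 1 = N by omega, h.cl] at e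
      refine ⟨?_, mem_U.2 ⟨N - 1, by omega, by omega, rfl⟩⟩
      rw [h.sh]; exact e
    rw [h4] at h5
    simp at h5
  have h3 : conn a (gs (U α N i)) (vs (U α N i)) (Nat.log2 (vs (U α N i))) = true := by
    apply conn_sound h hI
    rw [← vs_testBit]
    apply Nat.testBit_log2
    obtain ⟨y, hy⟩ := hne
    intro h0
    have := (vs_testBit _ _).2 hy
    rw [h0] at this
    simp at this
  unfold test
  rw [h1, h2, h3]

end Pool.Agent.H110.R12
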